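import Pool.Agent.Helper30.UP.St

/-! Project UP, module C6 -/

set_option autoImplicit false

noncomputable section

namespace Pool.Agent.Helper54.UP

open Finset
open scoped Classical
open Pool.Agent.Helper30.UP

theorem phi_W {c n : ℕ} (s : Fin n → E c) (W : Submodule (ZMod 2) (E c)) (x : E c) (hx : x ∈ W) :
    ∑ i ∈ univ.filter (fun i => s i ∈ perp W), chi x (s i) = (zc s W : ℝ) := by
  have h1 : ∀ i ∈ univ.filter (fun i => s i ∈ perp W), chi x (s i) = 1 := by
    intro i hi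
    rw [mem_filter] at hi
    unfold chi
    rw [if_pos (hi.2 x hx)]
  rw [sum_congr rfl h1, sum_const, nsmul_eq_mul, mul_one]
  rfl

/-- Parseval split along a subspace -/
theorem parseval_split {c n : ℕ} (s : Fin n → E c) (hs : Function.Injective s)
    (W : Submodule (ZMod 2) (E c)) (I : Finset (Fin n)) (b k : ℝ)
    (hW : ∀ x ∈ W, (∑ i ∈ I, chi x (s i)) ^ 2 = b ^ 2)
    (hn : ∀ x, x ∉ W → |∑ i ∈ I, chi x (s i)| ≤ k) :
    (2 : ℝ) ^ c * (I.card : ℝ) ≤ (Nat.card W : ℝ) * b ^ 2 + (2 : ℝ) ^ c * k ^ 2 := by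
  rw [← parseval_inj I s (fun i _ j _ h => hs h)]
  rw [← sum_filter_add_sum_filter_not univ (fun x => x ∈ W)]
  have h1 : ∑ x ∈ univ.filter (fun x => x ∈ W), (∑ i ∈ I, chi x (s i)) ^ 2
      = (Nat.card W : ℝ) * b ^ 2 := by
    rw [sum_congr rfl (fun x hx => hW x (mem_filter.1 hx).2), sum_const, nsmul_eq_mul, ← card_el]
    rfl
  have h2 : ∑ x ∈ univ.filter (fun x => x ∉ W), (∑ i ∈ I, chi x (s i)) ^ 2
      ≤ (2 : ℝ) ^ c * k ^ 2 := by
    have h3 : ∑ x ∈ univ.filter (fun x : E c => x ∉ W), (∑ i ∈ I, chi x (s i)) ^ 2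
        ≤ ∑ x ∈ univ.filter (fun x : E c => x ∉ W), k ^ 2 := by
      refine sum_le_sum fun x hx => ?_
      have := hn x (mem_filter.1 hx).2
      rw [← sq_abs]
      exact pow_le_pow_left₀ (abs_nonneg _) this 2
    refine h3.trans ?_
    rw [sum_const, nsmul_eq_mul]
    refine mul_le_mul_of_nonneg_right ?_ (sq_nonneg _)
    have h4 : (univ.filter (fun x : E c => x ∉ W)).card ≤ 2 ^ c := by
      refine (card_filter_le _ _).trans ?_
      rw [card_univ, card_E]
    exact_mod_cast h4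
  linarith

theorem arith_a (z H w D n K δ k₁ : ℝ) (hw : 0 < w) (hδ : 0 < δ) (hD : 1 ≤ D)
    (h2 : w * H * z ≤ w * z ^ 2 + w * H * k₁ ^ 2) (hb : D ≤ z)
    (hc : H ≤ 4 / δ * n) (hn : n ≤ K * D) : H - z ≤ 4 * K * k₁ ^ 2 / δ ∨ H - z ≤ 0 := by
  have h4 : w * (H * z) ≤ w * (z ^ 2 + H * k₁ ^ 2) := by linarith
  have h5 : H * z ≤ z ^ 2 + H * k₁ ^ 2 := le_of_mul_le_mul_left h4 hw
  have h6 : z * (H - z) ≤ k₁ ^ 2 * H := by linarith
  rcases le_or_gt (H - z) 0 with h7 | h7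
  · right; exact h7
  · left
    rw [le_div_iff₀ hδ]
    have h9 : D * (H - z) ≤ z * (H - z) := mul_le_mul_of_nonneg_right hb h7.le
    have h10 : k₁ ^ 2 * H ≤ k₁ ^ 2 * (4 / δ * n) := mul_le_mul_of_nonneg_left hc (sq_nonneg _)
    have h15 : 4 / δ * n ≤ 4 / δ * (K * D) := mul_le_mul_of_nonneg_left hn (by positivity)
    have h11 : k₁ ^ 2 * (4 / δ * n) ≤ k₁ ^ 2 * (4 / δ * (K * D)) :=
      mul_le_mul_of_nonneg_left h15 (sq_nonneg _)
    have h12 : D * ((H - z) * δ) ≤ D * (4 * K * k₁ ^ 2) := by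
      have h13 : D * (H - z) * δ ≤ k₁ ^ 2 * (4 / δ * (K * D)) * δ :=
        mul_le_mul_of_nonneg_right (by linarith) hδ.le
      have h14 : k₁ ^ 2 * (4 / δ * (K * D)) * δ = D * (4 * K * k₁ ^ 2) := by
        field_simp
      linarith
    exact le_of_mul_le_mul_left h12 (by linarith)

theorem C6 (h1 : StC1) : StC6 := by
  intro K T δ κ hK hT hδ hκ
  set k₁ : ℝ := max T (2 * κ / δ) with hk₁
  have hk₁T : T ≤ k₁ := le_max_left _ _
  have hk₁2 : 2 * κ / δ ≤ k₁ := le_max_right _ _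
  have hk₁pos : 0 < k₁ := by linarith
  have hKr : (1 : ℝ) ≤ K := by exact_mod_cast hK
  have hA : 0 < 4 * K * k₁ ^ 2 / δ := by positivity
  have hB : 0 < 4 / δ := by positivity
  refine ⟨k₁ + 4 * K * k₁ ^ 2 / δ + 4 / δ, by linarith, ?_⟩
  intro c n D s W hyp hblk
  obtain ⟨hD0, -, hC2, -, -, τ, hτT, hτ0, hτn, hτD⟩ := h1 K T c n D s hK hT hyp
  obtain ⟨hD1, hnD, hproj, -, hFh, hTn, hTD⟩ := hyp
  obtain ⟨hWD, hWδ, hWx⟩ := hblk
  have hWpos : (0 : ℝ) < Nat.card W := by exact_mod_cast card_pos W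
  have hDr : (1 : ℝ) ≤ D := by exact_mod_cast hD1
  have hnr : (n : ℝ) ≤ K * D := by exact_mod_cast hnD
  have hn1 : (1 : ℝ) ≤ n := by linarith
  -- (d)
  have hd : ∀ x, x ∉ W → |∑ i ∈ univ.filter (fun i => s i ∈ perp W), chi x (s i)| ≤ k₁ := by
    intro x hx
    have hs := sum_coset_Fh s W x
    set Φ := ∑ i ∈ univ.filter (fun i => s i ∈ perp W), chi x (s i) with hΦ
    have hlow : -(T) * (Nat.card W : ℝ) ≤ (Nat.card W : ℝ) * Φ := by
      rw [← hs]
      have : ∑ y ∈ el W, (-T) ≤ ∑ y ∈ el W, Fh s (x + y) := sum_le_sum fun y _ => hFh _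
      rw [sum_const, nsmul_eq_mul, card_el] at this
      linarith
    have hup : (Nat.card W : ℝ) * Φ ≤ 2 * κ / δ * (Nat.card W : ℝ) := by
      rw [← hs]
      have h2 : ∑ y ∈ el W, Fh s (x + y) ≤
          ∑ y ∈ el W, (if x + y ∈ Ds s then 2 * (n : ℝ) else 0) := by
        refine sum_le_sum fun y _ => ?_
        split_ifs with h
        · have := Fh_le s (x + y)
          linarith
        · rw [hτn _ h]
          exact hτ0
      refine h2.trans ?_
      rw [← sum_filter, sum_const, nsmul_eq_mul]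
      have h3 := hWx x hx
      have h4 : κ * ((Ds s).card : ℝ) ≤ κ / δ * (Nat.card W : ℝ) := by
        rw [div_mul_eq_mul_div, le_div_iff₀ hδ]
        have := mul_le_mul_of_nonneg_left hWδ hκ.le
        linarith
      have h5 : 2 * κ / δ * (Nat.card W : ℝ) = 2 * (κ / δ * (Nat.card W : ℝ)) := by ring
      rw [h5]
      linarith
    have h6 : -T ≤ Φ := by
      by_contra hc
      push Not at hc
      nlinarith
    have h7 : Φ ≤ 2 * κ / δ := by
      by_contra hc
      push Not at hc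
      nlinarith
    rw [abs_le]
    constructor <;> linarith
  -- (b)
  have hb : (D : ℝ) ≤ zc s W := by
    have h2 := sum_el_Fh' s W
    have h3 : (Nat.card W : ℝ) * D ≤ ∑ x ∈ el W, Fh s x := by
      have : ∑ y ∈ el W, (D : ℝ) ≤ ∑ y ∈ el W, Fh s y :=
        sum_le_sum fun y hy => (hτD y (hWD y ((mem_el W y).1 hy))).2
      rwa [sum_const, nsmul_eq_mul, card_el] at this
    rw [h2] at h3
    exact le_of_mul_le_mul_left h3 hWpos
  -- (c)
  have hcp := card_perp W
  have hcpr : (Nat.card W : ℝ) * Nat.card (perp W) = (2 : ℝ) ^ c := by exact_mod_cast hcp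
  have hc : (Nat.card (perp W) : ℝ) ≤ 4 / δ * n := by
    have h2 : (2 : ℝ) ^ c ≤ (4 / δ * n) * Nat.card W := by
      have h3 : 4 * n * ((Ds s).card : ℝ) ≤ (4 / δ * n) * Nat.card W := by
        have h4 : (4 / δ * n) * (Nat.card W : ℝ) = 4 * n * (Nat.card W : ℝ) / δ := by ring
        rw [h4, le_div_iff₀ hδ]
        have := mul_le_mul_of_nonneg_left hWδ (show (0:ℝ) ≤ 4 * n by linarith)
        linarith
      linarith
    rw [← hcpr] at h2
    have h5 : (Nat.card W : ℝ) * Nat.card (perp W) ≤ (Nat.card W : ℝ) * (4 / δ * n) := by linarith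
    exact le_of_mul_le_mul_left h5 hWpos
  -- (a)
  have ha : (Nat.card (perp W) : ℝ) - zc s W ≤ 4 * K * k₁ ^ 2 / δ := by
    have h2 := parseval_split s hproj.1 W (univ.filter (fun i => s i ∈ perp W)) (zc s W) k₁
      (fun x hx => by rw [phi_W s W x hx]) hd
    have h3 : ((univ.filter (fun i => s i ∈ perp W)).card : ℝ) = zc s W := rfl
    rw [h3, ← hcpr] at h2
    rcases arith_a _ _ _ D n K δ k₁ hWpos hδ hDr h2 hb hc hnr with h | h
    · exact h
    · linarith
  refine ⟨by linarith, by exact_mod_cast hb, ?_, fun x hx => (hd x hx).trans (by linarith)⟩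
  refine hc.trans ?_
  refine mul_le_mul_of_nonneg_right ?_ (by linarith)
  linarith

end Pool.Agent.Helper54.UP
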