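import Pool.Agent.Helper54.UP.M_C6

/-! Project UP, module C7 -/

set_option autoImplicit false

noncomputable section

namespace Pool.Agent.Helper54.UP

open Finset
open scoped Classical
open Pool.Agent.Helper30.UP

/-- the average over a coset with a character -/
theorem sum_coset_chi {c n : ℕ} (s : Fin n → E c) (W : Submodule (ZMod 2) (E c)) (x v : E c) :
    ∑ y ∈ el W, Fh s (x + y) * chi y v =
      (Nat.card W : ℝ) * ∑ i ∈ univ.filter (fun i => s i + v ∈ perp W), chi x (s i) := by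
  unfold Fh
  have h0 : ∀ y ∈ el W, (∑ i, chi (x + y) (s i)) * chi y v
      = ∑ i, chi x (s i) * chi y (s i + v) := by
    intro y _
    rw [sum_mul]
    refine sum_congr rfl fun i _ => ?_
    rw [chi_add_left, chi_add_right]
    ring
  rw [sum_congr rfl h0, sum_comm]
  have h1 : ∀ i : Fin n, ∑ y ∈ el W, chi x (s i) * chi y (s i + v) =
      if s i + v ∈ perp W then (Nat.card W : ℝ) * chi x (s i) else 0 := by
    intro i
    rw [← mul_sum, sum_el_chi]
    split_ifs
    · ring
    · ring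
  rw [sum_congr rfl fun i _ => h1 i, ← sum_filter, mul_sum]

theorem arith_b (b H w D n K k₁ k : ℝ) (hw : 0 < w) (hD : 1 ≤ D)
    (h2 : w * H * b ≤ w * b ^ 2 + w * H * k₁ ^ 2) (hb0 : 0 ≤ b) (hb : b ≤ H - D)
    (hc : H ≤ k * n) (hk : 0 ≤ k) (hn : n ≤ K * D) : b ≤ k₁ ^ 2 * k * K := by
  have h4 : w * (H * b) ≤ w * (b ^ 2 + H * k₁ ^ 2) := by linarith
  have h5 : H * b ≤ b ^ 2 + H * k₁ ^ 2 := le_of_mul_le_mul_left h4 hw
  have h6 : b * (H - b) ≤ k₁ ^ 2 * H := by linarith
  have h7 : b * D ≤ b * (H - b) := mul_le_mul_of_nonneg_left (by linarith) hb0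
  have h8 : k₁ ^ 2 * H ≤ k₁ ^ 2 * (k * (K * D)) := by
    refine mul_le_mul_of_nonneg_left ?_ (sq_nonneg _)
    exact hc.trans (mul_le_mul_of_nonneg_left hn hk)
  have h9 : D * b ≤ D * (k₁ ^ 2 * k * K) := by
    have : k₁ ^ 2 * (k * (K * D)) = D * (k₁ ^ 2 * k * K) := by ring
    linarith
  exact le_of_mul_le_mul_left h9 (by linarith)

theorem C7 (h1 : StC1) (h6 : StC6) : StC7 := by
  intro K T δ κ hK hT hδ hκ
  obtain ⟨k, hk0, hk⟩ := h6 K T δ κ hK hT hδ hκ
  have hKr : (1 : ℝ) ≤ K := by exact_mod_cast hK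
  refine ⟨(T + k) ^ 2 * k * K, by positivity, ?_⟩
  intro c n D s W hyp hblk v hv
  obtain ⟨-, hDz, hHn, hΦ⟩ := hk c n D s W hyp hblk
  obtain ⟨hD0, -, hC2, -, -, τ, hτT, hτ0, hτn, hτD⟩ := h1 K T c n D s hK hT hyp
  obtain ⟨hD1, hnD, hproj, -, hFh, hTn, hTD⟩ := hyp
  obtain ⟨hWD, hWδ, hWx⟩ := hblk
  have hWpos : (0 : ℝ) < Nat.card W := by exact_mod_cast card_pos W
  have hDr : (1 : ℝ) ≤ D := by exact_mod_cast hD1
  have hnr : (n : ℝ) ≤ K * D := by exact_mod_cast hnD
  have hs0 : ∑ y ∈ el W, chi y v = 0 := by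
    rw [sum_el_chi, if_neg hv]
  have hcardW : ∑ y ∈ el W, (1 : ℝ) = Nat.card W := by
    rw [sum_const, nsmul_eq_mul, mul_one, card_el]
  -- z - b ≥ D
  have hz : (zc s W : ℝ) ≤ Nat.card (perp W) := by
    have : zc s W ≤ (el (perp W)).card := by
      refine card_le_card_of_injOn s ?_ ?_
      · intro i hi
        have hi' := (mem_filter.1 hi).2
        exact (mem_el _ _).2 hi'
      · intro i _ j _ h
        exact hproj.1 h
    rw [card_el] at this
    exact_mod_cast this
  have hzb : (((univ.filter (fun i => s i + v ∈ perp W)).card : ℕ) : ℝ) ≤ Nat.card (perp W) - D := by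
    have e1 := sum_el_Fh s W v
    have e2 := sum_el_Fh' s W
    have h2 : ∑ y ∈ el W, (D : ℝ) * (1 - chi y v) ≤ ∑ y ∈ el W, Fh s y * (1 - chi y v) := by
      refine sum_le_sum fun y hy => ?_
      refine mul_le_mul_of_nonneg_right (hτD y (hWD y ((mem_el W y).1 hy))).2 ?_
      have := chi_le y v
      linarith
    have h3 : ∑ y ∈ el W, (D : ℝ) * (1 - chi y v) = D * Nat.card W := by
      rw [← mul_sum, sum_sub_distrib, hs0, hcardW, sub_zero]
    have h4 : ∑ y ∈ el W, Fh s y * (1 - chi y v) = (Nat.card W : ℝ) * (zc s W -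
        ((univ.filter (fun i => s i + v ∈ perp W)).card : ℕ)) := by
      have : ∀ y ∈ el W, Fh s y * (1 - chi y v) = Fh s y - Fh s y * chi y v := fun y _ => by ring
      rw [sum_congr rfl this, sum_sub_distrib, e1, e2]
      ring
    rw [h3, h4] at h2
    have h5 : (Nat.card W : ℝ) * D ≤ (Nat.card W : ℝ) * (zc s W -
        ((univ.filter (fun i => s i + v ∈ perp W)).card : ℕ)) := by linarith
    have h6 := le_of_mul_le_mul_left h5 hWpos
    linarith
  have hΨ : ∀ x, x ∉ W → |∑ i ∈ univ.filter (fun i => s i + v ∈ perp W), chi x (s i)| ≤ T + k := by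
    intro x hx
    have e1 := sum_coset_chi s W x v
    have e2 := sum_coset_Fh s W x
    have hφ := abs_le.1 (hΦ x hx)
    set Ψ := ∑ i ∈ univ.filter (fun i => s i + v ∈ perp W), chi x (s i) with hΨdef
    set Φ := ∑ i ∈ univ.filter (fun i => s i ∈ perp W), chi x (s i) with hΦdef
    have hp : -T * (Nat.card W : ℝ) ≤ (Nat.card W : ℝ) * (Φ + Ψ) := by
      have h2 : ∑ y ∈ el W, (-T) * (1 + chi y v) ≤ ∑ y ∈ el W, Fh s (x + y) * (1 + chi y v) := by
        refine sum_le_sum fun y _ => ?_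
        refine mul_le_mul_of_nonneg_right (hFh _) ?_
        have := neg_le_chi y v
        linarith
      have h3 : ∑ y ∈ el W, (-T) * (1 + chi y v) = -T * Nat.card W := by
        rw [← mul_sum, sum_add_distrib, hs0, hcardW, add_zero]
      have h4 : ∑ y ∈ el W, Fh s (x + y) * (1 + chi y v) = (Nat.card W : ℝ) * (Φ + Ψ) := by
        have : ∀ y ∈ el W, Fh s (x + y) * (1 + chi y v)
            = Fh s (x + y) + Fh s (x + y) * chi y v := fun y _ => by ring
        rw [sum_congr rfl this, sum_add_distrib, e1, e2]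
        ring
      rw [h3, h4] at h2
      exact h2
    have hm : -T * (Nat.card W : ℝ) ≤ (Nat.card W : ℝ) * (Φ - Ψ) := by
      have h2 : ∑ y ∈ el W, (-T) * (1 - chi y v) ≤ ∑ y ∈ el W, Fh s (x + y) * (1 - chi y v) := by
        refine sum_le_sum fun y _ => ?_
        refine mul_le_mul_of_nonneg_right (hFh _) ?_
        have := chi_le y v
        linarith
      have h3 : ∑ y ∈ el W, (-T) * (1 - chi y v) = -T * Nat.card W := by
        rw [← mul_sum, sum_sub_distrib, hs0, hcardW, sub_zero]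
      have h4 : ∑ y ∈ el W, Fh s (x + y) * (1 - chi y v) = (Nat.card W : ℝ) * (Φ - Ψ) := by
        have : ∀ y ∈ el W, Fh s (x + y) * (1 - chi y v)
            = Fh s (x + y) - Fh s (x + y) * chi y v := fun y _ => by ring
        rw [sum_congr rfl this, sum_sub_distrib, e1, e2]
        ring
      rw [h3, h4] at h2
      exact h2
    have hp' : -T ≤ Φ + Ψ := by
      have : (Nat.card W : ℝ) * (-T) ≤ (Nat.card W : ℝ) * (Φ + Ψ) := by linarith
      exact le_of_mul_le_mul_left this hWpos
    have hm' : -T ≤ Φ - Ψ := by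
      have : (Nat.card W : ℝ) * (-T) ≤ (Nat.card W : ℝ) * (Φ - Ψ) := by linarith
      exact le_of_mul_le_mul_left this hWpos
    rw [abs_le]
    constructor <;> linarith [hφ.1, hφ.2]
  have hP := parseval_split s hproj.1 W (univ.filter (fun i => s i + v ∈ perp W))
    (((univ.filter (fun i => s i + v ∈ perp W)).card : ℕ) : ℝ) (T + k) ?_ hΨ
  · have hcp := card_perp W
    have hcpr : (Nat.card W : ℝ) * Nat.card (perp W) = (2 : ℝ) ^ c := by exact_mod_cast hcp
    rw [← hcpr] at hP
    exact arith_b _ _ _ D n K (T + k) k hWpos hDr hP (Nat.cast_nonneg _) hzb hHn hk0.le hnr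
  · intro x hx
    have h3 : ∀ i ∈ univ.filter (fun i => s i + v ∈ perp W), chi x (s i) = chi x v := by
      intro i hi
      have hi' := (mem_filter.1 hi).2 x hx
      have h4 : chi x (s i + v) = 1 := by
        unfold chi
        rw [if_pos hi']
      rw [chi_add_right] at h4
      have h5 := chi_sq x v
      calc chi x (s i) = chi x (s i) * (chi x v * chi x v) := by rw [h5, mul_one]
        _ = (chi x (s i) * chi x v) * chi x v := by ring
        _ = chi x v := by rw [h4, one_mul]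
    rw [sum_congr rfl h3, sum_const, nsmul_eq_mul, mul_pow]
    have h6 : chi x v ^ 2 = 1 := by rw [pow_two]; exact chi_sq x v
    rw [h6, mul_one]

end Pool.Agent.Helper54.UP
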